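import Pool.Agent.R111.Lights.Grid

/-!
# Infinitely many Lights Out grids have nullity exactly two

For every `k ≥ 1` the `n × n` Lights Out grid with `n = 2 * 3 ^ k - 1` has nullity two.
-/

set_option autoImplicit false

namespace Pool.Agent.Results.MP_222d4b_co.NullityTwo

open Pool.Agent.R111.Lights

/-- Two cells of the `n × n` grid are adjacent when they differ by one in exactly one
coordinate. -/
def Adjacent {n : ℕ} (c c' : Fin n × Fin n) : Prop :=
  (c.1 = c'.1 ∧ |(c.2.val : ℤ) - c'.2.val| = 1) ∨ (c.2 = c'.2 ∧ |(c.1.val : ℤ) - c'.1.val| = 1)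

open Classical in
/-- The Lights Out matrix of the `n × n` grid over the field with two elements: the entry at
`(c, c')` is one exactly when `c = c'` or `c` and `c'` are adjacent. -/
noncomputable def lightsOut (n : ℕ) : Matrix (Fin n × Fin n) (Fin n × Fin n) (ZMod 2) :=
  fun c c' => if c = c' ∨ Adjacent c c' then 1 else 0

/-- The nullity `d(n)` of the `n × n` grid: the dimension of the kernel of its matrix. -/
noncomputable def nullity (n : ℕ) : ℕ :=
  Module.finrank (ZMod 2) (LinearMap.ker (lightsOut n).mulVecLin)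

theorem adj_iff {n : ℕ} (a b : Fin n) :
    |(a.val : ℤ) - b.val| = 1 ↔ (b.val + 1 = a.val ∨ a.val + 1 = b.val) := by
  rw [abs_eq (by norm_num)]
  omega

theorem mulVec_eq {n : ℕ} (x : Fin n × Fin n → ZMod 2) (i j : Fin n) :
    (lightsOut n).mulVec x (i, j) =
      ((fun i j => x (i, j)) + T1 n (fun i j => x (i, j)) + T2 n (fun i j => x (i, j))) i j := by
  classical
  change ∑ c', lightsOut n (i, j) c' * x c' = _
  rw [Fintype.sum_prod_type]
  have e : ∀ i' j' : Fin n, lightsOut n (i, j) (i', j') * x (i', j') =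
      (if i = i' then (if j = j' then x (i', j') else 0) else 0) +
      (if i'.val + 1 = i.val ∨ i.val + 1 = i'.val then (if j = j' then x (i', j') else 0) else 0) +
      (if i = i' then (if j'.val + 1 = j.val ∨ j.val + 1 = j'.val then x (i', j') else 0) else 0)
      := by
    intro i' j'
    unfold lightsOut Adjacent
    simp only [adj_iff, Prod.mk.injEq]
    by_cases hi : i = i'
    · subst hi
      have h0 : ¬ (i.val + 1 = i.val ∨ i.val + 1 = i.val) := by omega
      by_cases hj : j = j'
      · subst hj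
        have h1 : ¬ (j.val + 1 = j.val ∨ j.val + 1 = j.val) := by omega
        simp
      · simp [hj]
    · by_cases hj : j = j'
      · subst hj
        simp [hi]
      · simp [hi, hj]
  simp only [e, Finset.sum_add_distrib]
  rw [Pi.add_apply, Pi.add_apply, Pi.add_apply, Pi.add_apply, T1_apply, T2_apply, T_apply]
  congr 1
  · congr 1
    · rw [Finset.sum_eq_single i]
      · simp
      · intro i' _ hne
        simp [Ne.symm hne]
      · intro h
        exact absurd (Finset.mem_univ _) h
    · apply Finset.sum_congr rfl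
      intro i' _
      split_ifs <;> simp
  · rw [Finset.sum_eq_single i]
    · simp
    · intro i' _ hne
      simp [Ne.symm hne]
    · intro h
      exact absurd (Finset.mem_univ _) h

theorem mem_ker {n : ℕ} (x : Fin n × Fin n → ZMod 2) :
    x ∈ LinearMap.ker (lightsOut n).mulVecLin ↔ Ker n (fun i j => x (i, j)) := by
  rw [LinearMap.mem_ker, Matrix.mulVecLin_apply]
  unfold Ker
  constructor
  · intro h
    ext i j
    rw [← mulVec_eq, h]
    rfl
  · intro h
    ext c
    obtain ⟨i, j⟩ := c
    rw [mulVec_eq, h]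
    rfl

theorem nullity_eq {n k : ℕ} (hn : n + 1 = 2 * 3 ^ k) (hk : 1 ≤ k) : nullity n = 2 := by
  have h3 : 3 ∣ 3 ^ k := dvd_pow_self 3 (by omega)
  have hpos : 0 < 3 ^ k := by positivity
  have hn1 : 1 < n := by
    obtain ⟨c, hc⟩ := h3
    omega
  have hm3 : (n + 1) % 3 = 0 := by
    obtain ⟨c, hc⟩ := h3
    omega
  have hm2 : (n + 1) % 2 = 0 := by omega
  let z : Fin n := ⟨0, by omega⟩
  let o : Fin n := ⟨1, hn1⟩
  let φ : LinearMap.ker (lightsOut n).mulVecLin →ₗ[ZMod 2] (ZMod 2 × ZMod 2) :=
    { toFun := fun x => (x.1 (z, z), x.1 (z, o))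
      map_add' := fun x y => rfl
      map_smul' := fun c x => rfl }
  have hinj : Function.Injective φ := by
    rw [← LinearMap.ker_eq_bot, LinearMap.ker_eq_bot']
    rintro ⟨x, hx⟩ h
    have h1 : x (z, z) = 0 := congrArg Prod.fst h
    have h2 : x (z, o) = 0 := congrArg Prod.snd h
    rw [mem_ker] at hx
    have h4 := ker_inj hn hn1 hx h1 h2
    apply Subtype.ext
    ext c
    exact congrFun (congrFun h4 c.1) c.2
  let X1 : LinearMap.ker (lightsOut n).mulVecLin :=
    ⟨fun c => a3 (c.1.val + 1) * a2 (c.2.val + 1), (mem_ker _).2 (ker_X1 hm3 hm2)⟩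
  let X2 : LinearMap.ker (lightsOut n).mulVecLin :=
    ⟨fun c => a2 (c.1.val + 1) * a3 (c.2.val + 1), (mem_ker _).2 (ker_X2 hm3 hm2)⟩
  have h1 : φ X1 = (1, 0) := by
    change (a3 (0 + 1) * a2 (0 + 1), a3 (0 + 1) * a2 (1 + 1)) = _
    decide
  have h2 : φ X2 = (1, 1) := by
    change (a2 (0 + 1) * a3 (0 + 1), a2 (0 + 1) * a3 (1 + 1)) = _
    decide
  have hsurj : Function.Surjective φ := by
    rintro ⟨p, q⟩
    refine ⟨(p - q) • X1 + q • X2, ?_⟩
    rw [map_add, map_smul, map_smul, h1, h2]
    ext
    · simp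
    · simp
  unfold nullity
  rw [(LinearEquiv.ofBijective φ ⟨hinj, hsurj⟩).finrank_eq, Module.finrank_prod,
    Module.finrank_self]

/-- For every `k ≥ 1` the `n × n` Lights Out grid with `n = 2 * 3 ^ k - 1` has nullity two; in
particular infinitely many grids have nullity exactly two. -/
theorem result : (∀ k : ℕ, 1 ≤ k → nullity (2 * 3 ^ k - 1) = 2) ∧
    {n : ℕ | 0 < n ∧ nullity n = 2}.Infinite := by
  have h : ∀ k : ℕ, 1 ≤ k → nullity (2 * 3 ^ k - 1) = 2 := by
    intro k hk
    have hpos : 0 < 3 ^ k := by positivity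
    exact nullity_eq (k := k) (by omega) hk
  refine ⟨h, ?_⟩
  apply Set.infinite_of_injective_forall_mem (f := fun k : ℕ => 2 * 3 ^ (k + 1) - 1)
  · intro a b hab
    simp only at hab
    have ha : 0 < 3 ^ (a + 1) := by positivity
    have hb : 0 < 3 ^ (b + 1) := by positivity
    have : 3 ^ (a + 1) = 3 ^ (b + 1) := by omega
    have := Nat.pow_right_injective (le_refl 2 |>.trans (by norm_num : 2 ≤ 3)) this
    omega
  · intro k
    have hpos : 0 < 3 ^ (k + 1) := by positivity
    exact ⟨by omega, h (k + 1) (by omega)⟩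

end Pool.Agent.Results.MP_222d4b_co.NullityTwo
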